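import Pool.Agent.U685.IN.Stm
import Pool.Agent.N662.FP.Cl

/-!
# Uniform upper tails in a box (project IX, package UT)
-/

set_option autoImplicit false
open MeasureTheory ProbabilityTheory Filter Set
open scoped ENNReal Topology Pointwise

namespace Pool.Agent.U139.IX

open Pool.Agent.N662.FP
open Pool.Agent.U874.FP
open Pool.Agent.U685.IN

theorem decay (A δ c : ℝ) (hδ : 0 < δ) (hc : 0 < c) (η : ℝ) (hη : 0 < η) :
    ∀ᶠ t : ℝ in atTop, A * t ^ (4 : ℕ) * Real.exp (-(c * t ^ δ)) ≤ η := by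
  have h1 := (tendsto_rpow_mul_exp_neg_mul_atTop_nhds_zero (4 / δ) c hc).comp
    (tendsto_rpow_atTop hδ)
  have h2 := h1.const_mul A
  rw [mul_zero] at h2
  filter_upwards [h2.eventually (gt_mem_nhds hη), eventually_gt_atTop 0] with t ht ht0
  have e : (t ^ δ) ^ (4 / δ) = t ^ (4 : ℕ) := by
    rw [← Real.rpow_mul ht0.le, mul_div_cancel₀ _ hδ.ne', ← Real.rpow_natCast]
    norm_num
  simp only [Function.comp] at ht
  rw [e] at ht
  have e2 : -(c * t ^ δ) = -c * t ^ δ := by ring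
  rw [e2, mul_assoc]
  exact ht.le

/-- the lattice points of the box -/
noncomputable def FB (R : ℝ) : Finset V := Finset.Icc (-⌊R⌋) ⌊R⌋ ×ˢ Finset.Icc (-⌊R⌋) ⌊R⌋

theorem mem_FB {R : ℝ} {v : V} (h : Bx R v) : v ∈ FB R := by
  unfold FB
  rw [Finset.mem_product, Finset.mem_Icc, Finset.mem_Icc]
  obtain ⟨h1, h2⟩ := h
  rw [abs_le] at h1 h2
  refine ⟨⟨?_, Int.le_floor.2 h1.2⟩, ⟨?_, Int.le_floor.2 h2.2⟩⟩
  · have : -v.1 ≤ ⌊R⌋ := Int.le_floor.2 (by push_cast; linarith)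
    omega
  · have : -v.2 ≤ ⌊R⌋ := Int.le_floor.2 (by push_cast; linarith)
    omega

theorem FB_box {R : ℝ} {v : V} (h : v ∈ FB R) : Bx R v := by
  unfold FB at h
  rw [Finset.mem_product, Finset.mem_Icc, Finset.mem_Icc] at h
  obtain ⟨⟨h1, h2⟩, h3, h4⟩ := h
  have k1 : ((-⌊R⌋ : ℤ) : ℝ) ≤ (v.1 : ℝ) := by exact_mod_cast h1
  have k2 : (v.1 : ℝ) ≤ (⌊R⌋ : ℤ) := by exact_mod_cast h2
  have k3 : ((-⌊R⌋ : ℤ) : ℝ) ≤ (v.2 : ℝ) := by exact_mod_cast h3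
  have k4 : (v.2 : ℝ) ≤ (⌊R⌋ : ℤ) := by exact_mod_cast h4
  have hf := Int.floor_le R
  push_cast at k1 k3
  exact ⟨abs_le.2 ⟨by linarith, by linarith⟩, abs_le.2 ⟨by linarith, by linarith⟩⟩

theorem FB_card {R : ℝ} (hR : 0 ≤ R) : ((FB R).card : ℝ) ≤ (2 * R + 1) ^ 2 := by
  unfold FB
  rw [Finset.card_product, Int.card_Icc]
  have h0 : 0 ≤ ⌊R⌋ := Int.floor_nonneg.2 hR
  have h1 : (((⌊R⌋ + 1 - -⌊R⌋).toNat : ℕ) : ℝ) = 2 * (⌊R⌋ : ℝ) + 1 := by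
    have h2 : (((⌊R⌋ + 1 - -⌊R⌋).toNat : ℕ) : ℤ) = ⌊R⌋ + 1 - -⌊R⌋ := Int.toNat_of_nonneg (by omega)
    have h3 : (((⌊R⌋ + 1 - -⌊R⌋).toNat : ℕ) : ℝ) = (((⌊R⌋ + 1 - -⌊R⌋).toNat : ℤ) : ℝ) := by
      norm_cast
    rw [h3, h2]
    push_cast
    ring
  push_cast
  rw [h1]
  have h4 : (⌊R⌋ : ℝ) ≤ R := Int.floor_le R
  have h5 : (0 : ℝ) ≤ ⌊R⌋ := by exact_mod_cast h0
  nlinarith

theorem t_UT : S_UT := by
  intro Ω _ _ X hX μ hμ κ A B b δ K hκ0 hκ1 hA hb hδ hK hT η hη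
  obtain ⟨c₀, C, hc₀, hC, hcC⟩ := cNORM μ hμ
  obtain ⟨M, hM⟩ : ∃ M, M = 1 + 2 * C * K := ⟨_, rfl⟩
  have hM1 : 1 ≤ M := by rw [hM]; nlinarith [mul_pos hC hK]
  have hM0 : 0 < M := by linarith
  obtain ⟨N, hN⟩ : ∃ N, N = M ^ (1 - κ) := ⟨_, rfl⟩
  have hN0 : 0 < N := by rw [hN]; exact Real.rpow_pos_of_pos hM0 _
  obtain ⟨c, hc⟩ : ∃ c, c = b / (2 * N) := ⟨_, rfl⟩
  have hc0 : 0 < c := by rw [hc]; positivity
  filter_upwards [decay ((2 * K + 1) ^ 4) δ c hδ hc0 η hη, eventually_ge_atTop 1,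
    (tendsto_rpow_atTop hδ).eventually_ge_atTop (2 * (A * N))] with t ht ht1 htδ
  have ht0 : 0 < t := by linarith
  obtain ⟨g, hg⟩ : ∃ g, g = t ^ (1 - κ + δ) := ⟨_, rfl⟩
  have hg' : g = t ^ (1 - κ) * t ^ δ := by rw [hg, Real.rpow_add ht0]
  have hp0 : 0 < t ^ (1 - κ) := Real.rpow_pos_of_pos ht0 _
  have hd0 : 0 < t ^ δ := Real.rpow_pos_of_pos ht0 _
  have hKt : 0 ≤ K * t := by positivity
  have one : ∀ a c' : V, Bx (K * t) a → Bx (K * t) c' →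
      (volume : Measure Ω).real {ω | μ (em (c' - a)) + g ≤ D (env X ω) a c'} ≤
        Real.exp (-(c * t ^ δ)) := by
    intro a c' ha hc'
    obtain ⟨w, hw⟩ : ∃ w : V, w = c' - a := ⟨_, rfl⟩
    have hcw : c' = a + w := by rw [hw]; abel
    have hw1 : |(w.1 : ℝ)| ≤ 2 * (K * t) := by
      have e : (w.1 : ℝ) = (c'.1 : ℝ) - (a.1 : ℝ) := by rw [hw]; simp
      rw [e]
      have := abs_sub (c'.1 : ℝ) (a.1 : ℝ)
      linarith [ha.1, hc'.1]
    have hw2 : |(w.2 : ℝ)| ≤ 2 * (K * t) := by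
      have e : (w.2 : ℝ) = (c'.2 : ℝ) - (a.2 : ℝ) := by rw [hw]; simp
      rw [e]
      have := abs_sub (c'.2 : ℝ) (a.2 : ℝ)
      linarith [ha.2, hc'.2]
    obtain ⟨m, hm⟩ : ∃ m, m = μ (em w) := ⟨_, rfl⟩
    have hm0 : 0 ≤ m := by rw [hm]; exact apply_nonneg μ _
    have hm1 : m ≤ C * (2 * (K * t)) := by
      rw [hm]
      refine (hcC (em w)).2.trans (mul_le_mul_of_nonneg_left ?_ hC.le)
      exact max_le hw1 hw2
    have hm2 : 1 + m ≤ M * t := by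
      rw [hM]
      nlinarith
    have hm3 : (1 + m) ^ (1 - κ) ≤ N * t ^ (1 - κ) := by
      rw [hN, ← Real.mul_rpow hM0.le ht0.le]
      exact Real.rpow_le_rpow (by linarith) hm2 (by linarith)
    have hm4 : 0 < (1 + m) ^ (1 - κ) := Real.rpow_pos_of_pos (by linarith) _
    have hA2 : A * (1 + m) ^ (1 - κ) ≤ g / 2 := by
      calc A * (1 + m) ^ (1 - κ) ≤ A * (N * t ^ (1 - κ)) := mul_le_mul_of_nonneg_left hm3 hA.le
        _ = (A * N) * t ^ (1 - κ) := by ring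
        _ ≤ (t ^ δ / 2) * t ^ (1 - κ) := mul_le_mul_of_nonneg_right (by linarith) hp0.le
        _ = g / 2 := by rw [hg']; ring
    have hg0 : 0 < g := by rw [hg']; positivity
    have hup := hT.up w (g - A * (1 + m) ^ (1 - κ)) (by linarith)
    rw [← hm] at hup
    have e1 : m + A * (1 + m) ^ (1 - κ) + (g - A * (1 + m) ^ (1 - κ)) = m + g := by ring
    rw [e1] at hup
    have htil := cTIL Ω X hX a w (m + g)
    rw [← hw, ← hm, hcw, htil]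
    refine hup.trans (Real.exp_le_exp.2 ?_)
    rw [neg_le_neg_iff, le_div_iff₀ hm4]
    calc c * t ^ δ * (1 + m) ^ (1 - κ) ≤ c * t ^ δ * (N * t ^ (1 - κ)) :=
          mul_le_mul_of_nonneg_left hm3 (by positivity)
      _ = (c * N) * g := by rw [hg']; ring
      _ = b * (g / 2) := by
          rw [hc]
          field_simp
      _ ≤ b * (g - A * (1 + m) ^ (1 - κ)) := mul_le_mul_of_nonneg_left (by linarith) hb.le
  have hsub : {ω | ¬ ∀ a c : V, Bx (K * t) a → Bx (K * t) c →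
      D (env X ω) a c < μ (em (c - a)) + t ^ (1 - κ + δ)} ⊆
      ⋃ q ∈ FB (K * t) ×ˢ FB (K * t), {ω | μ (em (q.2 - q.1)) + g ≤ D (env X ω) q.1 q.2} := by
    intro ω hω
    change ¬ _ at hω
    push Not at hω
    obtain ⟨a, c', ha, hc', h⟩ := hω
    rw [mem_iUnion₂]
    refine ⟨(a, c'), Finset.mem_product.2 ⟨mem_FB ha, mem_FB hc'⟩, ?_⟩
    show μ (em (c' - a)) + g ≤ D (env X ω) a c'
    rw [hg]
    exact h
  have hcard : ((FB (K * t) ×ˢ FB (K * t)).card : ℝ) ≤ (2 * K + 1) ^ 4 * t ^ 4 := by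
    rw [Finset.card_product]
    push_cast
    have h1 := FB_card hKt
    have h2 : 2 * (K * t) + 1 ≤ (2 * K + 1) * t := by nlinarith
    have h3 : (2 * (K * t) + 1) ^ 2 ≤ ((2 * K + 1) * t) ^ 2 :=
      pow_le_pow_left₀ (by positivity) h2 2
    have h4 : (0 : ℝ) ≤ ((FB (K * t)).card : ℝ) := Nat.cast_nonneg _
    calc ((FB (K * t)).card : ℝ) * ((FB (K * t)).card : ℝ) ≤
          ((2 * K + 1) * t) ^ 2 * ((2 * K + 1) * t) ^ 2 :=
          mul_le_mul (h1.trans h3) (h1.trans h3) h4 (by positivity)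
      _ = (2 * K + 1) ^ 4 * t ^ 4 := by ring
  refine (measureReal_mono hsub (measure_ne_top _ _)).trans ?_
  refine (measureReal_biUnion_finset_le _ _).trans ?_
  have h7 : ∑ q ∈ FB (K * t) ×ˢ FB (K * t), (volume : Measure Ω).real
      {ω | μ (em (q.2 - q.1)) + g ≤ D (env X ω) q.1 q.2} ≤
      ∑ _q ∈ FB (K * t) ×ˢ FB (K * t), Real.exp (-(c * t ^ δ)) := by
    refine Finset.sum_le_sum fun q hq => ?_
    rw [Finset.mem_product] at hq
    exact one q.1 q.2 (FB_box hq.1) (FB_box hq.2)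
  refine h7.trans ?_
  rw [Finset.sum_const, nsmul_eq_mul]
  exact (mul_le_mul_of_nonneg_right hcard (Real.exp_pos _).le).trans ht

end Pool.Agent.U139.IX
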